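import Pool.Agent.helper28.SN.SpecC
import Pool.Agent.helper53.SC.HS1
import Pool.Agent.helper53.SC.HS2

/-!
Row sn:cMCP of project sn (MP_d2d7b9).
-/

set_option autoImplicit false

open scoped Pointwise ContDiff
open MeasureTheory Set Filter Topology Pool.Agent.helper83.SC Pool.Agent.helper69.SN

namespace Pool.Agent.helper28.SN

/-- Hessians are local. -/
theorem cMCP_loc {m : ℕ} (u v : E m → ℝ) (Z : Set (E m)) (hZ : IsClosed Z)
    (h : ∀ x ∉ Z, u x = v x) (x : E m) (hx : x ∉ Z) : hess u x = hess v x := by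
  have hO : IsOpen Zᶜ := hZ.isOpen_compl
  have h1 : ∀ y ∈ Zᶜ, ∀ j, pd j u y = pd j v y := by
    intro y hy j
    have : u =ᶠ[𝓝 y] v := by
      filter_upwards [hO.mem_nhds hy] with z hz using h z hz
    simp only [pd]
    rw [this.fderiv_eq]
  ext i j
  have : (pd j u) =ᶠ[𝓝 x] (pd j v) := by
    filter_upwards [hO.mem_nhds hx] with z hz using h1 z hz j
  have h2 : fderiv ℝ (pd j u) x = fderiv ℝ (pd j v) x := this.fderiv_eq
  change fderiv ℝ (pd j u) x (e i) = fderiv ℝ (pd j v) x (e i)
  rw [h2]

/-- The functions of the slots. -/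
noncomputable def cMCP_F {m n : ℕ} (a : Fin n → E m → ℝ) (lam : Fin n → ℝ) (b u : E m → ℝ) (r : ℕ)
    (T : Finset (Fin n)) : Fin m → E m → ℝ :=
  fun j => if h : (j : ℕ) < T.card then
      fun y => lam (T.orderEmbOfFin rfl ⟨j, h⟩) * a (T.orderEmbOfFin rfl ⟨j, h⟩) y
    else if (j : ℕ) < T.card + r then b else u

theorem cMCP_hess {m n : ℕ} (a : Fin n → E m → ℝ) (lam : Fin n → ℝ) (b u : E m → ℝ) (r : ℕ)
    (T : Finset (Fin n)) (ha : ∀ i, ContDiff ℝ ∞ (a i)) (x : E m) :
    slotA (hs a lam x) T r (hess b x) (hess u x) = fun j => hess (cMCP_F a lam b u r T j) x := by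
  funext j
  simp only [slotA, cMCP_F, hs]
  by_cases h : (j : ℕ) < T.card
  · rw [dif_pos h, dif_pos h]
    exact (hess_smul_of (ha _) _ x).symm
  · rw [dif_neg h, dif_neg h]
    split_ifs <;> rfl

theorem cMCP_smooth {m n : ℕ} (a : Fin n → E m → ℝ) (lam : Fin n → ℝ) (b u : E m → ℝ) (r : ℕ)
    (T : Finset (Fin n)) (ha : ∀ i, ContDiff ℝ ∞ (a i)) (hb : ContDiff ℝ ∞ b) (hu : ContDiff ℝ ∞ u)
    (j : Fin m) : ContDiff ℝ ∞ (cMCP_F a lam b u r T j) := by
  simp only [cMCP_F]
  by_cases h : (j : ℕ) < T.card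
  · rw [dif_pos h]
    exact contDiff_const.mul (ha _)
  · rw [dif_neg h]
    split_ifs
    · exact hb
    · exact hu

theorem cMCP_cont {m : ℕ} (F : Fin m → E m → ℝ) (hF : ∀ j, ContDiff ℝ ∞ (F j)) :
    Continuous fun x => mD (fun j => hess (F j) x) := by
  unfold mD
  refine continuous_const.mul (continuous_finsetSum _ fun σ _ => ?_)
  apply Continuous.matrix_det
  refine continuous_matrix fun i j => ?_
  have h := continuous_hess_of (hF (σ i))
  exact h.matrix_elem i j

theorem cMCP (h : cMCF_stmt) : cMCP_stmt := by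
  intro m n a lam b u v r Z hZ ha hb hu hv huv
  have key : ∀ T : Finset (Fin n),
      Integrable (fun x => (m.descFactorial (T.card + r) : ℝ) *
        (mD (fun j => hess (cMCP_F a lam b u r T j) x) -
          mD (fun j => hess (cMCP_F a lam b v r T j) x))) := by
    intro T
    have hc : Continuous (fun x => (m.descFactorial (T.card + r) : ℝ) *
        (mD (fun j => hess (cMCP_F a lam b u r T j) x) -
          mD (fun j => hess (cMCP_F a lam b v r T j) x))) :=
      continuous_const.mul ((cMCP_cont _ (cMCP_smooth a lam b u r T ha hb hu)).sub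
        (cMCP_cont _ (cMCP_smooth a lam b v r T ha hb hv)))
    refine hc.integrable_of_hasCompactSupport (HasCompactSupport.intro hZ fun x hx => ?_)
    have h1 : (fun j => hess (cMCP_F a lam b u r T j) x) =
        fun j => hess (cMCP_F a lam b v r T j) x := by
      rw [← cMCP_hess a lam b u r T ha x, ← cMCP_hess a lam b v r T ha x,
        cMCP_loc u v Z hZ.isClosed huv x hx]
    rw [h1, sub_self, mul_zero]
  have e : (fun x => dPh (hs a lam x) r (hess b x) (hess u x) -
      dPh (hs a lam x) r (hess b x) (hess v x)) =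
      fun x => ∑ T : Finset (Fin n), (m.descFactorial (T.card + r) : ℝ) *
        (mD (fun j => hess (cMCP_F a lam b u r T j) x) -
          mD (fun j => hess (cMCP_F a lam b v r T j) x)) := by
    funext x
    simp only [dPh]
    rw [← Finset.sum_sub_distrib]
    refine Finset.sum_congr rfl fun T _ => ?_
    rw [cMCP_hess a lam b u r T ha x, cMCP_hess a lam b v r T ha x]
    ring
  rw [e, integral_finsetSum _ fun T _ => key T]
  refine Finset.sum_eq_zero fun T _ => ?_
  rw [integral_const_mul]
  have := h (cMCP_F a lam b u r T) (cMCP_F a lam b v r T) Z hZ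
    (cMCP_smooth a lam b u r T ha hb hu) (cMCP_smooth a lam b v r T ha hb hv) (by
      intro j x hx
      simp only [cMCP_F]
      by_cases h : (j : ℕ) < T.card
      · rw [dif_pos h, dif_pos h]
      · rw [dif_neg h, dif_neg h]
        split_ifs
        · rfl
        · exact huv x hx)
  rw [this, mul_zero]

end Pool.Agent.helper28.SN
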