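import Pool.Agent.helper40.SN.SpecD
import Pool.Agent.helper81.SN.CUT

/-!
Row sn:dJEN of project sn (MP_d2d7b9). Uses the cutting lemma of helper81.
-/

set_option autoImplicit false

open scoped Pointwise ContDiff
open MeasureTheory Set Filter Topology Pool.Agent.helper83.SC Pool.Agent.helper69.SN

namespace Pool.Agent.helper40.SN

theorem dJEN : dJEN_stmt := by
  intro m g hg D' hD Z hZ C δ hC hδ
  obtain ⟨R, hR⟩ := hZ.isBounded.subset_closedBall (0 : E m)
  have hq : Continuous fun x : E m => C * Qf D' x := by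
    unfold Qf
    exact continuous_const.mul (((continuous_id.sub (pj D').continuous).norm).pow 2)
  have h0 : ∀ x, FlatAt g 0 x → C * Qf D' x ≤ 0 := by
    intro x hx
    have hx' : pj D' x = x := by
      simp only [pj]
      exact Submodule.starProjection_eq_self_iff.mpr (hD x hx)
    simp [Qf, hx']
  have hR' : (0 : ℝ) < max R 1 := lt_of_lt_of_le one_pos (le_max_right _ _)
  have hb : (0 : ℝ) < δ / 4 := by positivity
  obtain ⟨l0, hl0, H⟩ := Pool.Agent.helper81.SN.cut hg hq h0 hR' hb
  have hl : (0 : ℝ) < min l0 1 := lt_min hl0 one_pos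
  obtain ⟨a, c, h1, h2⟩ := H (min l0 1) hl (min_le_left _ _)
  have hld : 0 < min l0 1 * δ := mul_pos hl hδ
  refine ⟨min l0 1, min l0 1 * δ / 4, c - min l0 1 * δ / 4, a, hl, min_le_right _ _, by positivity,
    ?_, ?_⟩
  · intro x hx
    have hxR : ‖x‖ ≤ max R 1 := by
      have := hR hx
      rw [mem_closedBall_zero_iff] at this
      exact this.trans (le_max_left _ _)
    have := h2 x hxR
    linarith
  · have : g 0 - min l0 1 * (δ / 4) ≤ c := h1
    nlinarith

end Pool.Agent.helper40.SN
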